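import Pool.Agent.N110.CC.Stm

/-!
Project CC (helper110), part SEP (helper395): finitely many nonzero linear forms do not vanish at
some integral vector.
-/

set_option autoImplicit false

open Polynomial

namespace Pool.Agent.N395.CC

open Pool.Agent.N110.CC

/-- the polynomial of a linear form -/
private noncomputable def pol {r : ℕ} (l : (Fin r → ℝ) →ₗ[ℝ] ℝ) : ℝ[X] :=
  ∑ i : Fin r, C (l fun j => if i = j then 1 else 0) * X ^ (i : ℕ)

private lemma pol_coeff {r : ℕ} (l : (Fin r → ℝ) →ₗ[ℝ] ℝ) (i : Fin r) :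
    (pol l).coeff i = l fun j => if i = j then 1 else 0 := by
  unfold pol
  rw [Polynomial.finsetSum_coeff, Finset.sum_eq_single i]
  · rw [Polynomial.coeff_C_mul_X_pow, if_pos rfl]
  · intro j _ hj
    rw [Polynomial.coeff_C_mul_X_pow, if_neg]
    intro h
    exact hj (Fin.ext h.symm)
  · intro h
    exact absurd (Finset.mem_univ i) h

private lemma pol_ne {r : ℕ} (l : (Fin r → ℝ) →ₗ[ℝ] ℝ) (hl : l ≠ 0) : pol l ≠ 0 := by
  intro h
  apply hl
  apply LinearMap.ext
  intro x
  rw [LinearMap.pi_apply_eq_sum_univ l x, LinearMap.zero_apply]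
  refine Finset.sum_eq_zero fun i _ => ?_
  rw [← pol_coeff l i, h, Polynomial.coeff_zero, smul_zero]

private lemma pol_eval {r : ℕ} (l : (Fin r → ℝ) →ₗ[ℝ] ℝ) (t : ℕ) :
    (pol l).eval (t : ℝ) = l fun i => (((t : ℤ) ^ (i : ℕ) : ℤ) : ℝ) := by
  rw [LinearMap.pi_apply_eq_sum_univ l]
  unfold pol
  rw [Polynomial.eval_finsetSum]
  refine Finset.sum_congr rfl fun i _ => ?_
  rw [Polynomial.eval_mul, Polynomial.eval_C, Polynomial.eval_pow, Polynomial.eval_X, smul_eq_mul]
  push_cast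
  ring

theorem leafSEP : S_SEP := by
  intro r T hT
  have hP : (∏ l ∈ T, pol l) ≠ 0 := by
    rw [Finset.prod_ne_zero_iff]
    intro l hl
    exact pol_ne l fun h => hT (h ▸ hl)
  obtain ⟨t, ht⟩ : ∃ t : ℕ, (∏ l ∈ T, pol l).eval (t : ℝ) ≠ 0 := by
    by_contra hcon
    push Not at hcon
    apply hP
    apply Polynomial.eq_zero_of_infinite_isRoot
    refine (Set.infinite_range_of_injective (Nat.cast_injective (R := ℝ))).mono ?_
    rintro _ ⟨n, rfl⟩
    exact hcon n
  refine ⟨fun i => (t : ℤ) ^ (i : ℕ), fun l hl => ?_⟩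
  rw [Polynomial.eval_prod, Finset.prod_ne_zero_iff] at ht
  rw [← pol_eval l t]
  exact ht l hl

end Pool.Agent.N395.CC
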